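import Pool.Agent.QHN.Crit

/-!
# Chains in convex position in the plane
-/

set_option autoImplicit false

namespace Pool.Agent.QHN

open Finset

/-- an increasing enumeration of a finite set with respect to an injective functional -/
lemma sorted_enum {F : Type*} [AddCommGroup F] [Module ℝ F] (s : F →ₗ[ℝ] ℝ) (U : Finset F)
    (hinj : Set.InjOn s U) :
    ∃ v : ℕ → F, (∀ k < U.card, v k ∈ U) ∧ (∀ i j, i < j → j < U.card → s (v i) < s (v j)) := by
  classical
  have hcard : (U.image s).card = U.card := Finset.card_image_of_injOn hinj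
  set e := (U.image s).orderEmbOfFin hcard with he
  have hex : ∀ k : Fin U.card, ∃ x ∈ U, s x = e k := by
    intro k
    have := Finset.orderEmbOfFin_mem (U.image s) hcard k
    rw [Finset.mem_image] at this
    exact this
  choose w hwU hws using hex
  refine ⟨fun k => if h : k < U.card then w ⟨k, h⟩ else 0, ?_, ?_⟩
  · intro k hk
    simp only [hk, dif_pos]
    exact hwU _
  · intro i j hij hj
    have hi : i < U.card := hij.trans hj
    simp only [hi, hj, dif_pos]
    rw [hws, hws]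
    exact e.strictMono hij

lemma chain_aux {F : Type*} [AddCommGroup F] [Module ℝ F] (s τ : F →ₗ[ℝ] ℝ) (U : Finset F)
    (hinj : Set.InjOn s U)
    (hU : ∀ y ∈ U, ∃ α β : ℝ, 0 ≤ β ∧ ∀ z ∈ U, z ≠ y → α * s z + β * τ z < α * s y + β * τ y) :
    ∃ v : ℕ → F, (∀ k < U.card, v k ∈ U) ∧ (∀ i j, i < j → j < U.card → s (v i) < s (v j)) ∧
      ∀ i j, i < j → j < U.card → ∃ (g : F →ₗ[ℝ] ℝ) (b : ℝ), g (v i) = b ∧ g (v j) = b ∧
        (∀ k, i < k → k < j → b < g (v k)) ∧
        (∀ k, k < i → g (v k) < b) ∧ (∀ k, j < k → k < U.card → g (v k) < b) := by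
  obtain ⟨v, hvU, hvs⟩ := sorted_enum s U hinj
  refine ⟨v, hvU, hvs, ?_⟩
  have hne : ∀ i j, i < j → j < U.card → v i ≠ v j := by
    intro i j hij hj h
    have := hvs i j hij hj
    rw [h] at this
    exact lt_irrefl _ this
  have hmid : ∀ i k j, i < k → k < j → j < U.card →
      0 < (s (v j) - s (v i)) * (τ (v k) - τ (v i)) - (τ (v j) - τ (v i)) * (s (v k) - s (v i)) := by
    intro i k j hik hkj hj
    obtain ⟨α, β, hβ, h⟩ := hU (v k) (hvU k (hkj.trans hj))
    have h1 := h (v i) (hvU i ((hik.trans hkj).trans hj)) (hne i k hik (hkj.trans hj))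
    have h2 := h (v j) (hvU j hj) (hne k j hkj hj).symm
    have h3 := hvs i k hik (hkj.trans hj)
    have h4 := hvs k j hkj hj
    have h5 : 0 < (s (v j) - s (v k)) * ((α * s (v k) + β * τ (v k)) - (α * s (v i) + β * τ (v i))) :=
      mul_pos (by linarith) (by linarith)
    have h6 : 0 < (s (v k) - s (v i)) * ((α * s (v k) + β * τ (v k)) - (α * s (v j) + β * τ (v j))) :=
      mul_pos (by linarith) (by linarith)
    have h7 : 0 < β * ((s (v j) - s (v i)) * (τ (v k) - τ (v i)) -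
        (τ (v j) - τ (v i)) * (s (v k) - s (v i))) := by
      have : β * ((s (v j) - s (v i)) * (τ (v k) - τ (v i)) -
        (τ (v j) - τ (v i)) * (s (v k) - s (v i))) =
        (s (v j) - s (v k)) * ((α * s (v k) + β * τ (v k)) - (α * s (v i) + β * τ (v i))) +
        (s (v k) - s (v i)) * ((α * s (v k) + β * τ (v k)) - (α * s (v j) + β * τ (v j))) := by
        ring
      rw [this]
      exact add_pos h5 h6
    by_contra hcon
    push Not at hcon
    have := mul_nonpos_of_nonneg_of_nonpos hβ hcon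
    linarith
  intro i j hij hj
  refine ⟨(s (v j) - s (v i)) • τ - (τ (v j) - τ (v i)) • s,
    (s (v j) - s (v i)) * τ (v i) - (τ (v j) - τ (v i)) * s (v i), ?_, ?_, ?_, ?_, ?_⟩
  · simp [LinearMap.sub_apply, LinearMap.smul_apply]
  · simp only [LinearMap.sub_apply, LinearMap.smul_apply, smul_eq_mul]
    ring
  · intro k hik hkj
    have := hmid i k j hik hkj hj
    simp only [LinearMap.sub_apply, LinearMap.smul_apply, smul_eq_mul]
    nlinarith
  · intro k hki
    have := hmid k i j hki hij hj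
    simp only [LinearMap.sub_apply, LinearMap.smul_apply, smul_eq_mul]
    nlinarith
  · intro k hjk hk
    have := hmid i j k hij hjk hk
    simp only [LinearMap.sub_apply, LinearMap.smul_apply, smul_eq_mul]
    nlinarith

theorem chain (Y : Finset (E 2))
    (hY : ∀ y ∈ Y, ∃ f : E 2 →ₗ[ℝ] ℝ, ∀ z ∈ Y, z ≠ y → f z < f y) :
    ∃ (N : ℕ) (v : ℕ → E 2) (s : E 2 →ₗ[ℝ] ℝ), Y.card ≤ 2 * N ∧ (∀ k < N, v k ∈ Y) ∧
      (∀ i j, i < j → j < N → s (v i) < s (v j)) ∧
      ∀ i j, i < j → j < N → ∃ (g : E 2 →ₗ[ℝ] ℝ) (b : ℝ), g (v i) = b ∧ g (v j) = b ∧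
        (∀ k, i < k → k < j → b < g (v k)) ∧
        (∀ k, k < i → g (v k) < b) ∧ (∀ k, j < k → k < N → g (v k) < b) := by
  classical
  -- a generic direction
  obtain ⟨t, ht⟩ := Infinite.exists_notMem_finset
    ((Y ×ˢ Y).image (fun q : E 2 × E 2 => -(q.1 0 - q.2 0) / (q.1 1 - q.2 1)))
  set p0 : E 2 →ₗ[ℝ] ℝ := (EuclideanSpace.proj (0 : Fin 2) : E 2 →L[ℝ] ℝ).toLinearMap with hp0
  set p1 : E 2 →ₗ[ℝ] ℝ := (EuclideanSpace.proj (1 : Fin 2) : E 2 →L[ℝ] ℝ).toLinearMap with hp1
  have hp0x : ∀ x, p0 x = x 0 := fun x => rfl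
  have hp1x : ∀ x, p1 x = x 1 := fun x => rfl
  set s : E 2 →ₗ[ℝ] ℝ := p0 + t • p1 with hs
  have hsx : ∀ x, s x = x 0 + t * x 1 := fun x => rfl
  have hinj : Set.InjOn s Y := by
    intro x hx y hy hxy
    rw [hsx, hsx] at hxy
    by_cases h1 : x 1 = y 1
    · have h0 : x 0 = y 0 := by rw [h1] at hxy; linarith
      ext i
      fin_cases i
      · exact h0
      · exact h1
    · exfalso
      apply ht
      rw [Finset.mem_image]
      refine ⟨(x, y), Finset.mem_product.2 ⟨hx, hy⟩, ?_⟩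
      have h1' : x 1 - y 1 ≠ 0 := sub_ne_zero.2 h1
      show -(x 0 - y 0) / (x 1 - y 1) = t
      rw [div_eq_iff h1']
      linarith
  have hf : ∀ f : E 2 →ₗ[ℝ] ℝ, ∃ α β : ℝ, ∀ x, f x = α * s x + β * p1 x := by
    intro f
    refine ⟨f (EuclideanSpace.single 0 1), f (EuclideanSpace.single 1 1) -
      f (EuclideanSpace.single 0 1) * t, fun x => ?_⟩
    have hx : x = x 0 • EuclideanSpace.single (0 : Fin 2) (1 : ℝ) +
        x 1 • EuclideanSpace.single (1 : Fin 2) (1 : ℝ) := by
      ext i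
      fin_cases i <;> simp
    rw [hsx, hp1x]
    conv_lhs => rw [hx]
    rw [map_add, map_smul, map_smul, smul_eq_mul, smul_eq_mul]
    ring
  set U1 : Finset (E 2) := Y.filter (fun y => ∃ α β : ℝ, 0 ≤ β ∧
    ∀ z ∈ Y, z ≠ y → α * s z + β * p1 z < α * s y + β * p1 y) with hU1
  set U2 : Finset (E 2) := Y.filter (fun y => ∃ α β : ℝ, 0 ≤ β ∧
    ∀ z ∈ Y, z ≠ y → α * s z + β * (-p1) z < α * s y + β * (-p1) y) with hU2
  have hcov : Y ⊆ U1 ∪ U2 := by
    intro y hy
    obtain ⟨f, hfy⟩ := hY y hy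
    obtain ⟨α, β, hαβ⟩ := hf f
    rw [Finset.mem_union]
    rcases le_total 0 β with hβ | hβ
    · left
      rw [hU1, Finset.mem_filter]
      refine ⟨hy, α, β, hβ, fun z hz hzy => ?_⟩
      have := hfy z hz hzy
      rwa [hαβ, hαβ] at this
    · right
      rw [hU2, Finset.mem_filter]
      refine ⟨hy, α, -β, by linarith, fun z hz hzy => ?_⟩
      have := hfy z hz hzy
      rw [hαβ, hαβ] at this
      simp only [LinearMap.neg_apply]
      linarith
  have hcard : Y.card ≤ U1.card + U2.card :=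
    (Finset.card_le_card hcov).trans (Finset.card_union_le _ _)
  rcases le_total U2.card U1.card with hle | hle
  · obtain ⟨v, hv1, hv2, hv3⟩ := chain_aux s p1 U1
      (hinj.mono (by intro x hx; exact (Finset.mem_filter.1 hx).1))
      (by
        intro y hy
        rw [hU1, Finset.mem_filter] at hy
        obtain ⟨hyY, α, β, hβ, h⟩ := hy
        exact ⟨α, β, hβ, fun z hz hzy => h z (Finset.mem_filter.1 hz).1 hzy⟩)
    exact ⟨U1.card, v, s, by omega, fun k hk => (Finset.mem_filter.1 (hv1 k hk)).1, hv2, hv3⟩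
  · obtain ⟨v, hv1, hv2, hv3⟩ := chain_aux s (-p1) U2
      (hinj.mono (by intro x hx; exact (Finset.mem_filter.1 hx).1))
      (by
        intro y hy
        rw [hU2, Finset.mem_filter] at hy
        obtain ⟨hyY, α, β, hβ, h⟩ := hy
        exact ⟨α, β, hβ, fun z hz hzy => h z (Finset.mem_filter.1 hz).1 hzy⟩)
    exact ⟨U2.card, v, s, by omega, fun k hk => (Finset.mem_filter.1 (hv1 k hk)).1, hv2, hv3⟩

end Pool.Agent.QHN
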