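import Mathlib

/-!
# Counting part of the planar case of the quantitative Helly number problem
-/

set_option autoImplicit false

namespace Pool.Agent.QHN

open Finset Filter

section Single

variable (T : ℕ → ℕ → Prop)

/-- monotone family of arcs -/
def Mono : Prop := ∀ i j i' j', T i j → i' ≤ i → j ≤ j' → T i' j'

/-- any two arcs overlap -/
def Disj : Prop := ∀ i j i' j', T i j → T i' j' → i' < j

open Classical in
/-- length of a shortest arc -/
noncomputable def lam : ℕ := sInf {l | ∃ i, T i (i + l)}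

open Classical in
/-- start of a shortest arc -/
noncomputable def alp : ℕ := sInf {i | T i (i + lam T)}

variable {T}

lemma lam_spec (hd : Disj T) (hex : ∃ i w, T i w) : T (alp T) (alp T + lam T) := by
  obtain ⟨i, w, h⟩ := hex
  have hiw : i < w := hd i w i w h h
  have h1 : ∃ l, ∃ i, T i (i + l) := ⟨w - i, i, by rwa [Nat.add_sub_cancel' hiw.le]⟩
  have h2 : lam T ∈ {l | ∃ i, T i (i + l)} := Nat.sInf_mem h1
  have h3 : {i | T i (i + lam T)}.Nonempty := h2
  exact Nat.sInf_mem h3

lemma lam_le {i l : ℕ} (h : T i (i + l)) : lam T ≤ l := Nat.sInf_le ⟨i, h⟩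

open Classical in
lemma fiber_card (hm : Mono T) (u w N : ℕ) :
    ((range N).filter (fun i => T i w ∧ ¬ T (i + u) w)).card ≤ u := by
  set F := (range N).filter (fun i => T i w ∧ ¬ T (i + u) w) with hF
  rcases F.eq_empty_or_nonempty with h | h
  · rw [h]; simp
  · set i0 := F.min' h with hi0
    have hi0F : i0 ∈ F := F.min'_mem h
    have hsub : F ⊆ Finset.Ico i0 (i0 + u) := by
      intro i hi
      rw [Finset.mem_Ico]
      refine ⟨F.min'_le i hi, ?_⟩
      by_contra hcon
      push Not at hcon
      have h1 := (Finset.mem_filter.1 hi).2.1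
      have h2 := (Finset.mem_filter.1 hi0F).2.2
      exact h2 (hm i w (i0 + u) w h1 hcon le_rfl)
    calc F.card ≤ (Finset.Ico i0 (i0 + u)).card := Finset.card_le_card hsub
      _ = u := by simp

open Classical in
/-- pairs `(i, n)` with `M ≤ n < 2M` -/
lemma pairs_card (hm : Mono T) (u M N : ℕ) (P : ℕ → Prop) (K : ℕ)
    (W : Finset ℕ) (hW : W.card ≤ K)
    (hPW : ∀ i n, i < N → M ≤ n → n < 2 * M → P i → T i (i + n) → ¬ T (i + u) (i + n) → i + n ∈ W) :
    ∑ n ∈ Finset.Ico M (2 * M),
      ((range N).filter (fun i => P i ∧ T i (i + n) ∧ ¬ T (i + u) (i + n))).card ≤ u * K := by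
  set s : Finset (ℕ × ℕ) := ((range N) ×ˢ (Finset.Ico M (2 * M))).filter
    (fun q => P q.1 ∧ T q.1 (q.1 + q.2) ∧ ¬ T (q.1 + u) (q.1 + q.2)) with hs
  have h1 : ∑ n ∈ Finset.Ico M (2 * M),
      ((range N).filter (fun i => P i ∧ T i (i + n) ∧ ¬ T (i + u) (i + n))).card = s.card := by
    rw [hs, Finset.card_filter, Finset.sum_product_right]
    apply Finset.sum_congr rfl
    intro n _
    rw [Finset.card_filter]
  rw [h1]
  have h2 : s.card ≤ u * W.card := by
    apply Finset.card_le_mul_card_image_of_maps_to (f := fun q => q.1 + q.2)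
    · intro q hq
      rw [hs, Finset.mem_filter, Finset.mem_product, Finset.mem_range, Finset.mem_Ico] at hq
      exact hPW q.1 q.2 hq.1.1 hq.1.2.1 hq.1.2.2 hq.2.1 hq.2.2.1 hq.2.2.2
    · intro w _
      have : ((s.filter (fun q => q.1 + q.2 = w)).card) ≤
          ((range N).filter (fun i => T i w ∧ ¬ T (i + u) w)).card := by
        apply Finset.card_le_card_of_injOn (fun q => q.1)
        · intro q hq
          rw [Finset.mem_coe, Finset.mem_filter, hs, Finset.mem_filter, Finset.mem_product] at hq
          rw [Finset.mem_coe, Finset.mem_filter]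
          obtain ⟨⟨⟨hq1, _⟩, _, hq3, hq4⟩, hq5⟩ := hq
          rw [hq5] at hq3 hq4
          exact ⟨hq1, hq3, hq4⟩
        · intro q hq q' hq' he
          rw [Finset.mem_coe, Finset.mem_filter] at hq hq'
          have he' : q.1 = q'.1 := he
          have h5 := hq.2
          have h6 := hq'.2
          ext
          · exact he'
          · omega
      exact this.trans (fiber_card hm u w N)
  calc s.card ≤ u * W.card := h2
    _ ≤ u * K := Nat.mul_le_mul_left u hW

open Classical in
lemma deep_sum (hm : Mono T) (hd : Disj T) (u M N : ℕ) (P : ℕ → Prop) :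
    ∑ n ∈ Finset.Ico M (2 * M),
      ((range N).filter (fun i => P i ∧ T i (i + n) ∧ ¬ T (i + u) (i + n))).card
        ≤ if lam T < 2 * M then u * (2 * M) else 0 := by
  split_ifs with hl
  · by_cases hex : ∃ i n, i < N ∧ M ≤ n ∧ n < 2 * M ∧ P i ∧ T i (i + n) ∧ ¬ T (i + u) (i + n)
    · classical
      have hex' : ∃ w, ∃ i n, i + n = w ∧ i < N ∧ M ≤ n ∧ n < 2 * M ∧ P i ∧ T i (i + n) ∧
          ¬ T (i + u) (i + n) := by
        obtain ⟨i, n, h⟩ := hex
        exact ⟨i + n, i, n, rfl, h⟩
      set w0 := Nat.find hex' with hw0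
      obtain ⟨i0, n0, he0, _, _, hn0, _, hT0, _⟩ := Nat.find_spec hex'
      apply pairs_card hm u M N P (2 * M) (Finset.Ico w0 (w0 + 2 * M)) (by simp)
      intro i n hi hn1 hn2 hP hT hnT
      rw [Finset.mem_Ico]
      refine ⟨Nat.find_min' hex' ⟨i, n, rfl, hi, hn1, hn2, hP, hT, hnT⟩, ?_⟩
      have := hd i0 (i0 + n0) i (i + n) hT0 hT
      omega
    · push Not at hex
      apply pairs_card hm u M N P (2 * M) ∅ (by simp)
      intro i n hi hn1 hn2 hP hT hnT
      exact absurd (hex i n hi hn1 hn2 hP hT) hnT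
  · apply le_of_eq
    apply Finset.sum_eq_zero
    intro n hn
    rw [Finset.mem_Ico] at hn
    rw [Finset.card_eq_zero, Finset.filter_eq_empty_iff]
    intro i _ hi
    have := lam_le hi.2.1
    omega

open Classical in
lemma outer_sum (hm : Mono T) (hd : Disj T) (hex : ∃ i w, T i w) (u M N : ℕ) (P : ℕ → Prop)
    (hPu : ∀ i, P i → i + u ≤ alp T) :
    ∑ n ∈ Finset.Ico M (2 * M),
      ((range N).filter (fun i => P i ∧ T i (i + n) ∧ ¬ T (i + u) (i + n))).card
        ≤ u * lam T := by
  have hsp := lam_spec hd hex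
  apply pairs_card hm u M N P (lam T)
    (Finset.Ico (alp T + 1) (alp T + lam T + 1)) (by simp)
  intro i n _ _ _ hP hT hnT
  have hP' := hPu i hP
  rw [Finset.mem_Ico]
  constructor
  · have := hd i (i + n) (alp T) (alp T + lam T) hT hsp
    omega
  · by_contra hcon
    push Not at hcon
    exact hnT (hm (alp T) (alp T + lam T) (i + u) (i + n) hsp hP' (by omega))

variable (T) in
/-- first type of bad indices -/
def PA (a d i : ℕ) : Prop := d < lam T ∨ i + (a + 1) ≤ alp T

open Classical in
/-- the sum over `n` of the first part of the bad indices of one point -/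
lemma a_sum (hm : Mono T) (hd : Disj T) (hex : ∃ i w, T i w) (a d M N : ℕ) :
    ∑ n ∈ Finset.Ico M (2 * M),
      ((range N).filter (fun i => PA T a d i ∧ T i (i + n) ∧
        ¬ T (i + (a + 1)) (i + n))).card
        ≤ (if d < lam T ∧ lam T < 2 * M then (a + 1) * (2 * M) else 0) + (a + 1) * d := by
  by_cases hl : lam T ≤ d
  · refine le_trans (outer_sum hm hd hex (a + 1) M N (PA T a d) ?_) ?_
    · intro i hi
      rcases hi with hi | hi
      · omega
      · exact hi
    · have : (a + 1) * lam T ≤ (a + 1) * d := Nat.mul_le_mul_left _ hl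
      omega
  · refine le_trans (deep_sum hm hd (a + 1) M N (PA T a d)) ?_
    have hl' : d < lam T := by omega
    by_cases h2 : lam T < 2 * M
    · rw [if_pos h2, if_pos ⟨hl', h2⟩]
      exact Nat.le_add_right _ _
    · rw [if_neg h2]
      exact Nat.zero_le _

open Classical in
lemma bad_le (hm : Mono T) (hd : Disj T) (hex : ∃ i w, T i w) (a b d M N n : ℕ)
    (hab : a + 1 + d ≤ b) (hn : n < 2 * M) :
    ((range N).filter (fun i => T i (i + n) ∧ ¬ T i (i + b) ∧ ¬ T (i + a + 1) (i + n))).card ≤
      ((range N).filter (fun i => PA T a d i ∧ T i (i + n) ∧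
        ¬ T (i + (a + 1)) (i + n))).card +
      (if lam T ≤ d then ((Finset.Ico (alp T) (alp T + lam T)).filter
        (fun i => ¬ T i (i + b) ∧ T i (i + 2 * M))).card else 0) := by
  have hsp := lam_spec hd hex
  by_cases hl : lam T ≤ d
  · rw [if_pos hl]
    refine le_trans (Finset.card_le_card ?_) (Finset.card_union_le _ _)
    intro i hi
    rw [Finset.mem_filter] at hi
    obtain ⟨hi1, hi2, hi3, hi4⟩ := hi
    rw [Finset.mem_union, Finset.mem_filter, Finset.mem_filter, Finset.mem_Ico]
    by_cases hia : i + (a + 1) ≤ alp T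
    · left
      exact ⟨hi1, Or.inr hia, hi2, by rwa [← add_assoc]⟩
    · right
      refine ⟨⟨?_, ?_⟩, hi3, hm i (i + n) i (i + 2 * M) hi2 le_rfl (by omega)⟩
      · by_contra hcon
        push Not at hcon
        exact hi3 (hm (alp T) (alp T + lam T) i (i + b) hsp hcon.le (by omega))
      · exact hd (alp T) (alp T + lam T) i (i + n) hsp hi2
  · rw [if_neg hl, add_zero]
    apply Finset.card_le_card
    intro i hi
    rw [Finset.mem_filter] at hi ⊢
    exact ⟨hi.1, Or.inl (by omega), hi.2.1, by rw [← add_assoc]; exact hi.2.2.2⟩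

end Single

end Pool.Agent.QHN
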