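import Pool.Agent.QHN.Defs

/-!
# Critical configurations for quantitative Helly numbers of discrete sets
-/

set_option autoImplicit false

namespace Pool.Agent.QHN

open Finset

section Comb

open Classical in
/-- combinatorial part: pushing half-spaces outwards -/
lemma comb {ι α : Type*} [Nonempty α] (T A : Finset α) (J : Finset ι) (F : ι → α → ℝ) (b : ι → ℝ) (t : ℕ)
    (h2 : ∀ x ∈ T, x ∉ A → ∃ j ∈ J, b j ≤ F j x)
    (h3 : ∀ J' ⊆ J, J'.card ≤ t → ∃ x ∈ T, x ∉ A ∧ ∀ j ∈ J', F j x < b j) :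
    ∃ (J0 : Finset ι) (b' : ι → ℝ) (y : ι → α), J0 ⊆ J ∧ t < J0.card ∧
      (∀ j ∈ J0, y j ∈ T ∧ F j (y j) = b' j ∧ ∀ i ∈ J0, i ≠ j → F i (y j) < b' i) ∧
      (∀ j ∈ J0, b j ≤ b' j) ∧ ∀ x ∈ T, (∀ j ∈ J0, F j x < b' j) → x ∈ A := by
  -- minimal subfamily
  set 𝓙 : Finset (Finset ι) := J.powerset.filter (fun J' => ∀ x ∈ T, x ∉ A → ∃ j ∈ J', b j ≤ F j x)
    with h𝓙
  have hne : 𝓙.Nonempty := ⟨J, by rw [h𝓙, Finset.mem_filter]; exact ⟨Finset.mem_powerset_self J, h2⟩⟩
  obtain ⟨J0, hJ0, hmin⟩ := Finset.exists_min_image 𝓙 Finset.card hne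
  rw [h𝓙, Finset.mem_filter, Finset.mem_powerset] at hJ0
  obtain ⟨hJ0J, hJ0P⟩ := hJ0
  have hcard : t < J0.card := by
    by_contra hcon
    push Not at hcon
    obtain ⟨x, hxT, hxA, hx⟩ := h3 J0 hJ0J hcon
    obtain ⟨j, hj, hjb⟩ := hJ0P x hxT hxA
    exact absurd (hx j hj) (not_lt.2 hjb)
  -- valid thresholds
  let Valid : (ι → ℝ) → Prop := fun c =>
    (∀ j ∈ J0, b j ≤ c j) ∧ ∀ x ∈ T, (∀ j ∈ J0, F j x < c j) → x ∈ A
  have hb : Valid b := by
    refine ⟨fun j _ => le_rfl, fun x hxT hx => ?_⟩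
    by_contra hxA
    obtain ⟨j, hj, hjb⟩ := hJ0P x hxT hxA
    exact absurd (hx j hj) (not_lt.2 hjb)
  let Φ : (ι → ℝ) → ℕ := fun c => ∑ j ∈ J0, (T.filter (fun x => F j x ≤ c j)).card
  have hΦ : BddAbove {q | ∃ c, Valid c ∧ Φ c = q} := by
    refine ⟨J0.card * T.card, ?_⟩
    rintro q ⟨c, -, rfl⟩
    calc Φ c ≤ ∑ j ∈ J0, T.card := Finset.sum_le_sum (fun j _ => Finset.card_filter_le _ _)
      _ = J0.card * T.card := by rw [Finset.sum_const, smul_eq_mul]
  have hmem := Nat.sSup_mem (s := {q | ∃ c, Valid c ∧ Φ c = q}) ⟨Φ b, b, hb, rfl⟩ hΦ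
  obtain ⟨c, hc, hcΦ⟩ := hmem
  have hmax : ∀ c', Valid c' → Φ c' ≤ Φ c := by
    intro c' hc'
    rw [hcΦ]
    exact le_csSup hΦ ⟨c', hc', rfl⟩
  have hy : ∀ j ∈ J0, ∃ z ∈ T, F j z = c j ∧ ∀ i ∈ J0, i ≠ j → F i z < c i := by
    intro j hj
    have hnot : J0.erase j ∉ 𝓙 := by
      intro hcon
      have := hmin _ hcon
      have := Finset.card_erase_lt_of_mem hj
      omega
    have hx0 : ∃ x ∈ T, x ∉ A ∧ ∀ i ∈ J0.erase j, F i x < b i := by
      by_contra hcon
      push Not at hcon
      apply hnot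
      rw [h𝓙, Finset.mem_filter, Finset.mem_powerset]
      exact ⟨(Finset.erase_subset _ _).trans hJ0J, hcon⟩
    set Z : Finset α := T.filter (fun x => x ∉ A ∧ ∀ i ∈ J0, i ≠ j → F i x < c i) with hZ
    have hZne : Z.Nonempty := by
      obtain ⟨x, hxT, hxA, hx⟩ := hx0
      refine ⟨x, ?_⟩
      rw [hZ, Finset.mem_filter]
      exact ⟨hxT, hxA, fun i hi hij => (hx i (Finset.mem_erase.2 ⟨hij, hi⟩)).trans_le (hc.1 i hi)⟩
    obtain ⟨z, hz, hzmin⟩ := Finset.exists_min_image Z (F j) hZne
    have hz' := hz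
    rw [hZ, Finset.mem_filter] at hz'
    obtain ⟨hzT, hzA, hzi⟩ := hz'
    have hge : c j ≤ F j z := by
      by_contra hcon
      push Not at hcon
      apply hzA
      apply hc.2 z hzT
      intro i hi
      by_cases hij : i = j
      · rw [hij]; exact hcon
      · exact hzi i hi hij
    refine ⟨z, hzT, ?_, hzi⟩
    by_contra hne'
    have hlt : c j < F j z := lt_of_le_of_ne hge (fun h => hne' h.symm)
    set c' := Function.update c j (F j z) with hc'
    have hc'j : c' j = F j z := by rw [hc']; simp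
    have hc'i : ∀ i, i ≠ j → c' i = c i := by
      intro i hij
      rw [hc', Function.update_of_ne hij]
    have hval : Valid c' := by
      refine ⟨fun i hi => ?_, fun x hxT hx => ?_⟩
      · by_cases hij : i = j
        · rw [hij, hc'j]; exact (hc.1 j hj).trans hge
        · rw [hc'i i hij]; exact hc.1 i hi
      · by_contra hxA
        have hxZ : x ∈ Z := by
          rw [hZ, Finset.mem_filter]
          refine ⟨hxT, hxA, fun i hi hij => ?_⟩
          have := hx i hi
          rwa [hc'i i hij] at this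
        have h1 := hzmin x hxZ
        have h2' := hx j hj
        rw [hc'j] at h2'
        exact absurd h2' (not_lt.2 h1)
    have hΦlt : Φ c < Φ c' := by
      apply Finset.sum_lt_sum
      · intro i hi
        apply Finset.card_le_card
        intro x hx
        rw [Finset.mem_filter] at hx ⊢
        refine ⟨hx.1, ?_⟩
        by_cases hij : i = j
        · rw [hij, hc'j]
          rw [hij] at hx
          exact hx.2.trans hge
        · rw [hc'i i hij]; exact hx.2
      · refine ⟨j, hj, ?_⟩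
        apply Finset.card_lt_card
        rw [Finset.ssubset_iff_of_subset]
        · refine ⟨z, ?_, ?_⟩
          · rw [Finset.mem_filter, hc'j]
            exact ⟨hzT, le_rfl⟩
          · rw [Finset.mem_filter]
            intro hcon
            exact absurd hcon.2 (not_le.2 hlt)
        · intro x hx
          rw [Finset.mem_filter] at hx ⊢
          rw [hc'j]
          exact ⟨hx.1, hx.2.trans hge⟩
    exact absurd (hmax c' hval) (not_le.2 hΦlt)
  choose! y hy using hy
  exact ⟨J0, c, y, hJ0J, hcard, hy, hc.1, hc.2⟩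

end Comb

section Hull

variable {F : Type*} [AddCommGroup F] [Module ℝ F]

lemma convex_insert_halfspace (f : F →ₗ[ℝ] ℝ) (y : F) :
    Convex ℝ (insert y {x | f x < f y}) := by
  intro u hu v hv a b ha hb hab
  rcases hu with rfl | hu
  · rcases hv with rfl | hv
    · left
      rw [← add_smul, hab, one_smul]
    · rcases hb.eq_or_lt with hb0 | hb0
      · left
        have ha1 : a = 1 := by linarith
        rw [← hb0, ha1]; simp
      · right
        show f (a • u + b • v) < f u
        have hv' : f v < f u := hv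
        rw [map_add, map_smul, map_smul, smul_eq_mul, smul_eq_mul]
        have ha1 : a = 1 - b := by linarith
        rw [ha1]
        nlinarith
  · rcases hv with rfl | hv
    · rcases ha.eq_or_lt with ha0 | ha0
      · left
        have hb1 : b = 1 := by linarith
        rw [← ha0, hb1]; simp
      · right
        show f (a • u + b • v) < f v
        have hu' : f u < f v := hu
        rw [map_add, map_smul, map_smul, smul_eq_mul, smul_eq_mul]
        have hb1 : b = 1 - a := by linarith
        rw [hb1]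
        nlinarith
    · right
      show f (a • u + b • v) < f y
      have hu' : f u < f y := hu
      have hv' : f v < f y := hv
      rw [map_add, map_smul, map_smul, smul_eq_mul, smul_eq_mul]
      rcases ha.eq_or_lt with ha0 | ha0
      · have hb1 : b = 1 := by linarith
        rw [← ha0, hb1]; linarith
      · have h1 : a * f u < a * f y := mul_lt_mul_of_pos_left hu' ha0
        have h2 : b * f v ≤ b * f y := mul_le_mul_of_nonneg_left hv'.le hb
        have h3 : a * f y + b * f y = f y := by rw [← add_mul, hab, one_mul]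
        linarith

lemma hull_insert (f : F →ₗ[ℝ] ℝ) (y : F) (P : Set F)
    (hP : ∀ p ∈ P, p = y ∨ f p < f y) {x : F} (hx : x ∈ convexHull ℝ P) : x = y ∨ f x < f y :=
  (convexHull_min (fun p hp => hP p hp) (convex_insert_halfspace f y)) hx

lemma hull_le (f : F →ₗ[ℝ] ℝ) (c : ℝ) (P : Set F)
    (hP : ∀ p ∈ P, f p ≤ c) {x : F} (hx : x ∈ convexHull ℝ P) : f x ≤ c :=
  (convexHull_min (fun p hp => hP p hp) (convex_halfSpace_le f.isLinear c)) hx

lemma hull_lt (f : F →ₗ[ℝ] ℝ) (c : ℝ) (P : Set F)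
    (hP : ∀ p ∈ P, f p < c) {x : F} (hx : x ∈ convexHull ℝ P) : f x < c :=
  (convexHull_min (fun p hp => hP p hp) (convex_halfSpace_lt f.isLinear c)) hx

lemma hull_ge (f : F →ₗ[ℝ] ℝ) (c : ℝ) (P : Set F)
    (hP : ∀ p ∈ P, c ≤ f p) {x : F} (hx : x ∈ convexHull ℝ P) : c ≤ f x :=
  (convexHull_min (fun p hp => hP p hp) (convex_halfSpace_ge f.isLinear c)) hx

end Hull

theorem crit {n : ℕ} (S : Set (E n)) (hS : ∀ B ⊆ S, Bornology.IsBounded B → B.Finite) (k t : ℕ)
    (h : ¬ HellyBound S k t) :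
    ∃ (Y A : Finset (E n)), A.card = k ∧ t < Y.card ∧ (Y : Set (E n)) ⊆ S ∧
      (∀ y ∈ Y, ∃ f : E n →ₗ[ℝ] ℝ, ∀ z ∈ Y, z ≠ y → f z < f y) ∧
      (∀ x ∈ S, x ∈ convexHull ℝ ((Y : Set (E n)) ∪ A) → x ∈ Y ∨ x ∈ A) := by
  classical
  unfold HellyBound at h
  push Not at h
  obtain ⟨m, C, hC, hk, hI⟩ := h
  -- minimal index set
  set 𝓘 : Finset (Finset (Fin m)) :=
    Finset.univ.filter (fun I => ((⋂ i ∈ I, C i) ∩ S).encard = k) with h𝓘
  have hne : 𝓘.Nonempty := ⟨Finset.univ, by
    rw [h𝓘, Finset.mem_filter]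
    refine ⟨Finset.mem_univ _, ?_⟩
    simpa using hk⟩
  obtain ⟨I, hIm, hmin⟩ := Finset.exists_min_image 𝓘 Finset.card hne
  rw [h𝓘, Finset.mem_filter] at hIm
  have hIk := hIm.2
  have hIt : t < I.card := by
    by_contra hcon
    push Not at hcon
    exact hI I hcon hIk
  set A0 : Set (E n) := (⋂ i ∈ I, C i) ∩ S with hA0
  have hA0fin : A0.Finite := Set.finite_of_encard_eq_coe hIk
  have hyex : ∀ i ∈ I, ∃ y ∈ S, y ∉ A0 ∧ ∀ j ∈ I, j ≠ i → y ∈ C j := by
    intro i hi
    have hnot : I.erase i ∉ 𝓘 := by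
      intro hcon
      have := hmin _ hcon
      have := Finset.card_erase_lt_of_mem hi
      omega
    by_contra hcon
    push Not at hcon
    apply hnot
    rw [h𝓘, Finset.mem_filter]
    refine ⟨Finset.mem_univ _, ?_⟩
    rw [← hIk]
    congr 1
    apply Set.Subset.antisymm
    · intro y hy
      by_contra hyA
      obtain ⟨j, hj, hji, hyj⟩ := hcon y hy.2 hyA
      apply hyj
      have := hy.1
      simp only [Set.mem_iInter] at this
      exact this j (Finset.mem_erase.2 ⟨hji, hj⟩)
    · intro y hy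
      rw [hA0] at hy
      refine ⟨?_, hy.2⟩
      have h1 := hy.1
      simp only [Set.mem_iInter] at h1 ⊢
      intro j hj
      exact h1 j (Finset.mem_of_mem_erase hj)
  choose! y hyS hyA hyC using hyex
  -- the finite point set
  set P : Fin m → Set (E n) := fun i => (y '' {j | j ∈ I ∧ j ≠ i}) ∪ A0 with hP
  set P0 : Set (E n) := (y '' {j | j ∈ I}) ∪ A0 with hP0
  have hP0fin : P0.Finite := ((Set.toFinite _).image y).union hA0fin
  have hPfin : ∀ i, (P i).Finite := fun i => ((Set.toFinite _).image y).union hA0fin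
  have hPC : ∀ i ∈ I, convexHull ℝ (P i) ⊆ C i := by
    intro i hi
    apply convexHull_min _ (hC i)
    rintro x (⟨j, ⟨hj, hji⟩, rfl⟩ | hx)
    · exact hyC j hj i hi (fun h => hji h.symm)
    · have := hx.1
      simp only [Set.mem_iInter] at this
      exact this i hi
  set T0 : Set (E n) := convexHull ℝ P0 ∩ S with hT0
  have hT0fin : T0.Finite := by
    apply hS _ Set.inter_subset_right
    exact ((isBounded_convexHull).2 hP0fin.isBounded).subset Set.inter_subset_left
  set T : Finset (E n) := hT0fin.toFinset with hT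
  set A : Finset (E n) := hA0fin.toFinset with hA
  have hmemT : ∀ x, x ∈ T ↔ x ∈ convexHull ℝ P0 ∧ x ∈ S := by
    intro x
    rw [hT, Set.Finite.mem_toFinset, hT0]
    exact Iff.rfl
  have hmemA : ∀ x, x ∈ A ↔ x ∈ A0 := by
    intro x
    rw [hA, Set.Finite.mem_toFinset]
  have hIne : I.Nonempty := Finset.card_pos.1 (by omega)
  have : Nonempty (Fin m) := ⟨hIne.choose⟩
  -- separating functionals
  have hsep : ∀ x, x ∈ T → x ∉ A → ∃ i ∈ I, ∃ (f : E n →ₗ[ℝ] ℝ) (b : ℝ),
      (∀ p ∈ P i, f p < b) ∧ b ≤ f x := by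
    intro x hxT hxA
    rw [hmemT] at hxT
    rw [hmemA] at hxA
    have hex : ∃ i ∈ I, x ∉ convexHull ℝ (P i) := by
      by_contra hcon
      push Not at hcon
      apply hxA
      rw [hA0]
      refine ⟨?_, hxT.2⟩
      simp only [Set.mem_iInter]
      intro i hi
      exact hPC i hi (hcon i hi)
    obtain ⟨i, hi, hxi⟩ := hex
    have hcl : IsClosed (convexHull ℝ (P i)) := (hPfin i).isClosed_convexHull (𝕜 := ℝ)
    obtain ⟨f, u, hu1, hu2⟩ := geometric_hahn_banach_closed_point (convex_convexHull ℝ (P i)) hcl hxi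
    refine ⟨i, hi, f.toLinearMap, u, fun p hp => hu1 p (subset_convexHull ℝ _ hp), hu2.le⟩
  choose! ix hix f b hfb hbf using hsep
  obtain ⟨J0, b', y', hJ0, hJ0c, hy', hbb', hval⟩ := comb T A (T \ A) (fun x p => f x p) b t
    (by
      intro x hxT hxA
      exact ⟨x, Finset.mem_sdiff.2 ⟨hxT, hxA⟩, hbf x hxT hxA⟩)
    (by
      intro J' hJ' hJ'c
      have hlt : (J'.image ix).card < I.card := (Finset.card_image_le).trans_lt (hJ'c.trans_lt hIt)
      obtain ⟨i0, hi0, hi0'⟩ := Finset.exists_mem_notMem_of_card_lt_card hlt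
      refine ⟨y i0, ?_, ?_, ?_⟩
      · rw [hmemT]
        exact ⟨subset_convexHull ℝ _ (Or.inl ⟨i0, hi0, rfl⟩), hyS i0 hi0⟩
      · rw [hmemA]
        exact hyA i0 hi0
      · intro x hx
        have hx' := Finset.mem_sdiff.1 (hJ' hx)
        apply hfb x hx'.1 hx'.2
        left
        refine ⟨i0, ⟨hi0, ?_⟩, rfl⟩
        intro hcon
        apply hi0'
        rw [hcon]
        exact Finset.mem_image_of_mem ix hx)
  have hJ0T : ∀ j ∈ J0, j ∈ T ∧ j ∉ A := fun j hj => Finset.mem_sdiff.1 (hJ0 hj)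
  have hA0b : ∀ j ∈ J0, ∀ a ∈ A, f j a < b' j := by
    intro j hj a ha
    have h1 := hJ0T j hj
    exact (hfb j h1.1 h1.2 a (Or.inr ((hmemA a).1 ha))).trans_le (hbb' j hj)
  have hinj : Set.InjOn y' J0 := by
    intro i hi j hj hij
    by_contra hne'
    have h1 := (hy' j hj).2.2 i hi hne'
    have h2 := (hy' i hi).2.1
    rw [hij] at h2
    have h1' : f i (y' j) < b' i := h1
    have h2' : f i (y' j) = b' i := h2
    linarith
  refine ⟨J0.image y', A, ?_, ?_, ?_, ?_, ?_⟩
  · have h1 : (A : Set (E n)) = A0 := by rw [hA]; exact hA0fin.coe_toFinset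
    have h2 : ((A : Set (E n))).encard = k := by rw [h1]; exact hIk
    rw [Set.encard_coe_eq_coe_finsetCard] at h2
    exact_mod_cast h2
  · rw [Finset.card_image_of_injOn hinj]
    exact hJ0c
  · intro x hx
    rw [Finset.mem_coe, Finset.mem_image] at hx
    obtain ⟨j, hj, rfl⟩ := hx
    exact ((hmemT _).1 (hy' j hj).1).2
  · intro x hx
    rw [Finset.mem_image] at hx
    obtain ⟨j, hj, rfl⟩ := hx
    refine ⟨f j, ?_⟩
    intro z hz hne'
    rw [Finset.mem_image] at hz
    obtain ⟨i, hi, rfl⟩ := hz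
    have h1 : f j (y' j) = b' j := (hy' j hj).2.1
    have h2 : f j (y' i) < b' j := (hy' i hi).2.2 j hj (by
      intro hcon
      apply hne'
      rw [hcon])
    linarith
  · intro x hxS hx
    have hxT : x ∈ T := by
      rw [hmemT]
      refine ⟨?_, hxS⟩
      have : (((J0.image y' : Finset (E n)) : Set (E n)) ∪ A) ⊆ convexHull ℝ P0 := by
        rintro p (hp | hp)
        · rw [Finset.mem_coe, Finset.mem_image] at hp
          obtain ⟨j, hj, rfl⟩ := hp
          exact ((hmemT _).1 (hy' j hj).1).1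
        · rw [Finset.mem_coe, hmemA] at hp
          exact subset_convexHull ℝ _ (Or.inr hp)
      exact (convexHull_min this (convex_convexHull ℝ P0)) hx
    by_contra hcon
    push Not at hcon
    apply hcon.2
    apply hval x hxT
    intro j hj
    have hfy : f j (y' j) = b' j := (hy' j hj).2.1
    have h1 : x = y' j ∨ f j x < f j (y' j) := by
      apply hull_insert (f j) (y' j) _ _ hx
      rintro p (hp | hp)
      · rw [Finset.mem_coe, Finset.mem_image] at hp
        obtain ⟨i, hi, rfl⟩ := hp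
        by_cases hij : i = j
        · left; rw [hij]
        · right
          rw [hfy]
          exact (hy' i hi).2.2 j hj (fun h => hij h.symm)
      · right
        rw [hfy]
        exact hA0b j hj p hp
    rcases h1 with h1 | h1
    · exfalso
      apply hcon.1
      rw [h1]
      exact Finset.mem_image_of_mem y' hj
    · rw [hfy] at h1
      exact h1

end Pool.Agent.QHN
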