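import Mathlib

/-!
# Quantitative Helly numbers of discrete sets: definitions
-/

set_option autoImplicit false

namespace Pool.Agent.QHN

/-- Euclidean space -/
abbrev E (n : ℕ) := EuclideanSpace ℝ (Fin n)

/-- `HellyBound S k t` says that the quantitative Helly number `c(S,k)` is at most `t`:
whenever finitely many convex sets have exactly `k` points of `S` in common, some at most `t` of
them already have exactly `k` points of `S` in common. -/
def HellyBound {n : ℕ} (S : Set (E n)) (k t : ℕ) : Prop :=
  ∀ (m : ℕ) (C : Fin m → Set (E n)), (∀ i, Convex ℝ (C i)) →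
    ((⋂ i, C i) ∩ S).encard = k →
    ∃ I : Finset (Fin m), I.card ≤ t ∧ ((⋂ i ∈ I, C i) ∩ S).encard = k

end Pool.Agent.QHN
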