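import Pool.Agent.QHN.Count

/-!
# Counting part of the planar case: families of configurations
-/

set_option autoImplicit false

namespace Pool.Agent.QHN

open Finset Filter

section One

variable {α : Type*} (X : Finset α) (T : α → ℕ → ℕ → Prop)

open Classical in
/-- number of points with long shortest arc -/
noncomputable def RR (d : ℕ) : ℕ := (X.filter (fun x => d < lam (T x))).card

open Classical in
/-- inner pairs of large scale -/
noncomputable def GG (d s : ℕ) : ℕ :=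
  ∑ x ∈ X, if lam (T x) ≤ d then ((Finset.Ico (alp (T x)) (alp (T x) + lam (T x))).filter
    (fun i => ¬ T x i (i + s))).card else 0

open Classical in
/-- number of bad pairs -/
noncomputable def BB (N a b c : ℕ) : ℕ :=
  ∑ x ∈ X, ((range N).filter
    (fun i => T x i (i + c) ∧ ¬ T x i (i + b) ∧ ¬ T x (i + a + 1) (i + c))).card

open Classical in
/-- middle part of `RR` -/
noncomputable def RRm (d M : ℕ) : ℕ := (X.filter (fun x => d < lam (T x) ∧ lam (T x) < 2 * M)).card

open Classical in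
/-- middle part of `GG` -/
noncomputable def GGm (d b M : ℕ) : ℕ :=
  ∑ x ∈ X, if lam (T x) ≤ d then ((Finset.Ico (alp (T x)) (alp (T x) + lam (T x))).filter
    (fun i => ¬ T x i (i + b) ∧ T x i (i + 2 * M))).card else 0

variable {X T}

lemma RR_anti : Antitone (RR X T) := by
  intro d d' h
  unfold RR
  apply Finset.card_le_card
  intro x hx
  rw [Finset.mem_filter] at hx ⊢
  exact ⟨hx.1, by omega⟩

lemma RR_le (d : ℕ) : RR X T d ≤ X.card := Finset.card_filter_le _ _

lemma GG_anti (hm : ∀ x ∈ X, Mono (T x)) (d : ℕ) : Antitone (GG X T d) := by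
  classical
  intro s s' h
  unfold GG
  apply Finset.sum_le_sum
  intro x hx
  split_ifs
  · apply Finset.card_le_card
    intro i hi
    rw [Finset.mem_filter] at hi ⊢
    refine ⟨hi.1, fun h1 => hi.2 (hm x hx i (i + s) i (i + s') h1 le_rfl (by omega))⟩
  · exact le_rfl

lemma GG_le (d s : ℕ) : GG X T d s ≤ d * X.card := by
  classical
  unfold GG
  calc _ ≤ ∑ x ∈ X, d := by
        apply Finset.sum_le_sum
        intro x _
        split_ifs with h
        · refine (Finset.card_filter_le _ _).trans ?_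
          simpa using h
        · exact Nat.zero_le _
    _ = d * X.card := by rw [Finset.sum_const, smul_eq_mul, mul_comm]

lemma RRm_le (d M : ℕ) (hd : d ≤ 2 * M) : RRm X T d M + RR X T (2 * M) ≤ RR X T d := by
  classical
  unfold RRm RR
  rw [← Finset.card_union_of_disjoint]
  · apply Finset.card_le_card
    intro x hx
    rw [Finset.mem_union, Finset.mem_filter, Finset.mem_filter] at hx
    rw [Finset.mem_filter]
    rcases hx with hx | hx
    · exact ⟨hx.1, hx.2.1⟩
    · exact ⟨hx.1, by omega⟩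
  · rw [Finset.disjoint_left]
    intro x hx hx'
    rw [Finset.mem_filter] at hx hx'
    omega

lemma GGm_le (hm : ∀ x ∈ X, Mono (T x)) (d b M : ℕ) (hb : b ≤ 2 * M) :
    GGm X T d b M + GG X T d (2 * M) ≤ GG X T d b := by
  classical
  unfold GGm GG
  rw [← Finset.sum_add_distrib]
  apply Finset.sum_le_sum
  intro x hx
  by_cases h : lam (T x) ≤ d
  · simp only [if_pos h]
    rw [← Finset.card_union_of_disjoint]
    · apply Finset.card_le_card
      intro i hi
      rw [Finset.mem_union, Finset.mem_filter, Finset.mem_filter] at hi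
      rw [Finset.mem_filter]
      rcases hi with hi | hi
      · exact ⟨hi.1, hi.2.1⟩
      · exact ⟨hi.1, fun h1 => hi.2 (hm x hx i (i + b) i (i + 2 * M) h1 le_rfl (by omega))⟩
    · rw [Finset.disjoint_left]
      intro i hi hi'
      rw [Finset.mem_filter] at hi hi'
      exact hi'.2 hi.2.2
  · simp only [if_neg h]
    exact le_rfl

lemma BB_sum (hm : ∀ x ∈ X, Mono (T x)) (hd : ∀ x ∈ X, Disj (T x))
    (hex : ∀ x ∈ X, ∃ i w, T x i w) (N a b d M : ℕ) (hab : a + 1 + d ≤ b) :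
    ∑ n ∈ Finset.Ico M (2 * M), BB X T N a b n ≤
      (a + 1) * (2 * M) * RRm X T d M + (a + 1) * d * X.card + M * GGm X T d b M := by
  classical
  unfold BB
  rw [Finset.sum_comm]
  have key : ∀ x ∈ X, ∑ n ∈ Finset.Ico M (2 * M), ((range N).filter
      (fun i => T x i (i + n) ∧ ¬ T x i (i + b) ∧ ¬ T x (i + a + 1) (i + n))).card ≤
      (if d < lam (T x) ∧ lam (T x) < 2 * M then (a + 1) * (2 * M) else 0) + (a + 1) * d +
      M * (if lam (T x) ≤ d then ((Finset.Ico (alp (T x)) (alp (T x) + lam (T x))).filter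
        (fun i => ¬ T x i (i + b) ∧ T x i (i + 2 * M))).card else 0) := by
    intro x hx
    calc ∑ n ∈ Finset.Ico M (2 * M), ((range N).filter
          (fun i => T x i (i + n) ∧ ¬ T x i (i + b) ∧ ¬ T x (i + a + 1) (i + n))).card
        ≤ ∑ n ∈ Finset.Ico M (2 * M), (((range N).filter (fun i => PA (T x) a d i ∧
            T x i (i + n) ∧ ¬ T x (i + (a + 1)) (i + n))).card +
            (if lam (T x) ≤ d then ((Finset.Ico (alp (T x)) (alp (T x) + lam (T x))).filter
              (fun i => ¬ T x i (i + b) ∧ T x i (i + 2 * M))).card else 0)) := by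
          apply Finset.sum_le_sum
          intro n hn
          rw [Finset.mem_Ico] at hn
          exact bad_le (hm x hx) (hd x hx) (hex x hx) a b d M N n hab hn.2
      _ = ∑ n ∈ Finset.Ico M (2 * M), ((range N).filter (fun i => PA (T x) a d i ∧
            T x i (i + n) ∧ ¬ T x (i + (a + 1)) (i + n))).card +
            M * (if lam (T x) ≤ d then ((Finset.Ico (alp (T x)) (alp (T x) + lam (T x))).filter
              (fun i => ¬ T x i (i + b) ∧ T x i (i + 2 * M))).card else 0) := by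
          rw [Finset.sum_add_distrib, Finset.sum_const, Nat.card_Ico, smul_eq_mul]
          congr 2
          omega
      _ ≤ _ := by
          have := a_sum (hm x hx) (hd x hx) (hex x hx) a d M N
          omega
  refine (Finset.sum_le_sum key).trans ?_
  rw [Finset.sum_add_distrib, Finset.sum_add_distrib]
  unfold RRm GGm
  have h1 : ∑ x ∈ X, (if d < lam (T x) ∧ lam (T x) < 2 * M then (a + 1) * (2 * M) else 0) =
      (a + 1) * (2 * M) * (X.filter (fun x => d < lam (T x) ∧ lam (T x) < 2 * M)).card := by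
    rw [Finset.card_filter, Finset.mul_sum]
    apply Finset.sum_congr rfl
    intro x _
    split_ifs <;> simp
  have h2 : ∑ _x ∈ X, (a + 1) * d = (a + 1) * d * X.card := by
    rw [Finset.sum_const, smul_eq_mul, mul_comm]
  rw [h1, h2, Finset.mul_sum]

/-- averaging -/
lemma BB_avg (hm : ∀ x ∈ X, Mono (T x)) (hd : ∀ x ∈ X, Disj (T x))
    (hex : ∀ x ∈ X, ∃ i w, T x i w) (C Q N a b d M : ℕ) (hX : X.card ≤ C * N)
    (hab : a + 1 + d ≤ b) (hbM : b ≤ 2 * M) (hM : 0 < M) (hMQ : Q * C * d * (a + 1) ≤ M)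
    (h1 : (Q * (a + 1)) * RR X T d ≤ (Q * (a + 1)) * RR X T (2 * M) + N)
    (h2 : Q * GG X T d b ≤ Q * GG X T d (2 * M) + N) :
    ∃ n ∈ Finset.Ico M (2 * M), Q * BB X T N a b n ≤ 4 * N := by
  have e1 := RRm_le (X := X) (T := T) d M (by omega)
  have e2 := GGm_le hm d b M hbM
  have e3 := BB_sum hm hd hex N a b d M hab
  have f1 : (Q * (a + 1)) * RRm X T d M ≤ N := by
    have := Nat.mul_le_mul_left (Q * (a + 1)) e1
    rw [mul_add] at this
    omega
  have f2 : Q * GGm X T d b M ≤ N := by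
    have := Nat.mul_le_mul_left Q e2
    rw [mul_add] at this
    omega
  have f3 : Q * ((a + 1) * d * X.card) ≤ M * N := by
    calc Q * ((a + 1) * d * X.card) ≤ Q * ((a + 1) * d * (C * N)) := by gcongr
      _ = (Q * C * d * (a + 1)) * N := by ring
      _ ≤ M * N := Nat.mul_le_mul_right _ hMQ
  have f4 : Q * ∑ n ∈ Finset.Ico M (2 * M), BB X T N a b n ≤ 4 * (M * N) := by
    calc Q * ∑ n ∈ Finset.Ico M (2 * M), BB X T N a b n
        ≤ Q * ((a + 1) * (2 * M) * RRm X T d M + (a + 1) * d * X.card + M * GGm X T d b M) :=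
          Nat.mul_le_mul_left _ e3
      _ = (2 * M) * ((Q * (a + 1)) * RRm X T d M) + Q * ((a + 1) * d * X.card) +
          M * (Q * GGm X T d b M) := by ring
      _ ≤ (2 * M) * N + M * N + M * N := by gcongr
      _ = 4 * (M * N) := by ring
  by_contra hcon
  push Not at hcon
  have hne : (Finset.Ico M (2 * M)).Nonempty := ⟨M, by rw [Finset.mem_Ico]; omega⟩
  have : ∑ n ∈ Finset.Ico M (2 * M), 4 * N < ∑ n ∈ Finset.Ico M (2 * M), Q * BB X T N a b n :=
    Finset.sum_lt_sum_of_nonempty hne hcon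
  rw [Finset.sum_const, Nat.card_Ico, smul_eq_mul, ← Finset.mul_sum] at this
  have hM2 : 2 * M - M = M := by omega
  rw [hM2] at this
  have h5 : M * (4 * N) = 4 * (M * N) := by ring
  omega

end One

section Seq

variable {α : Type*} (𝒰 : Ultrafilter ℕ) (N : ℕ → ℕ) (X : ℕ → Finset α)
  (T : ℕ → α → ℕ → ℕ → Prop)

lemma stab (f : ℕ → ℕ → ℕ) (K : ℕ) (hK : ∀ j, f j 0 ≤ K * N j)
    (Q : ℕ) : ∃ d, ∀ d', d ≤ d' → ∀ᶠ j in (𝒰 : Filter ℕ), Q * f j d ≤ Q * f j d' + N j := by
  by_contra hcon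
  push Not at hcon
  choose g hg1 hg2 using hcon
  have hg3 : ∀ d, ∀ᶠ j in (𝒰 : Filter ℕ), Q * f j (g d) + N j < Q * f j d := hg2
  let D : ℕ → ℕ := fun n => Nat.rec 0 (fun _ x => g x) n
  have hD0 : D 0 = 0 := rfl
  have hDs : ∀ n, D (n + 1) = g (D n) := fun n => rfl
  have hR : ∀ R, ∀ᶠ j in (𝒰 : Filter ℕ), Q * f j (D R) + R * N j ≤ Q * f j 0 ∧
      (0 < R → Q * f j (D R) + R * N j < Q * f j 0) := by
    intro R
    induction R with
    | zero => exact Filter.Eventually.of_forall (fun j => by simp [hD0])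
    | succ R ih =>
      filter_upwards [ih, hg3 (D R)] with j h1 h2
      rw [hDs R, Nat.add_mul, one_mul]
      constructor
      · omega
      · intro _
        omega
  obtain ⟨j, hj⟩ := (hR (Q * K + 1)).exists
  have h1 := hj.2 (by omega)
  have h2 := Nat.mul_le_mul_left Q (hK j)
  have h3 : Q * (K * N j) = (Q * K) * N j := by ring
  rw [Nat.add_mul, one_mul] at h1
  omega

/-- consecutive admissible scales -/
def Good (Q a b : ℕ) : Prop :=
  ∃ d, a + 1 + d ≤ b ∧
    (∀ d', d ≤ d' → ∀ᶠ j in (𝒰 : Filter ℕ),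
      (Q * (a + 1)) * RR (X j) (T j) d ≤ (Q * (a + 1)) * RR (X j) (T j) d' + N j) ∧
    (∀ s', b ≤ s' → ∀ᶠ j in (𝒰 : Filter ℕ),
      Q * GG (X j) (T j) d b ≤ Q * GG (X j) (T j) d s' + N j)

variable {𝒰 N X T}
variable (C : ℕ) (hX : ∀ j, (X j).card ≤ C * N j)
  (hm : ∀ j, ∀ x ∈ X j, Mono (T j x)) (hd : ∀ j, ∀ x ∈ X j, Disj (T j x))
  (hex : ∀ j, ∀ x ∈ X j, ∃ i w, T j x i w)

include hX hm in
lemma good_next (Q a : ℕ) : ∃ b0, ∀ b, b0 ≤ b → Good 𝒰 N X T Q a b := by
  obtain ⟨d, hd'⟩ := stab 𝒰 N (fun j d => RR (X j) (T j) d) C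
    (fun j => (RR_le 0).trans (hX j)) (Q * (a + 1))
  obtain ⟨s0, hs0⟩ := stab 𝒰 N (fun j s => GG (X j) (T j) d s) (d * C)
    (fun j => (GG_le d 0).trans (by
      calc d * (X j).card ≤ d * (C * N j) := Nat.mul_le_mul_left _ (hX j)
        _ = d * C * N j := by ring)) Q
  refine ⟨max (a + 1 + d) s0, fun b hb => ⟨d, (le_max_left _ _).trans hb, hd', ?_⟩⟩
  intro s' hs'
  have hb' : s0 ≤ b := (le_max_right _ _).trans hb
  filter_upwards [hs0 s' (hb'.trans hs')] with j hj
  have : GG (X j) (T j) d b ≤ GG (X j) (T j) d s0 := GG_anti (hm j) d hb'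
  have := Nat.mul_le_mul_left Q this
  omega

include hX hm hd hex in
lemma good_step (Q a b : ℕ) (h : Good 𝒰 N X T Q a b) :
    ∃ c, Good 𝒰 N X T Q b c ∧
      ∀ᶠ j in (𝒰 : Filter ℕ), Q * BB (X j) (T j) (N j) a b c ≤ 4 * N j := by
  obtain ⟨d, hab, h1, h2⟩ := h
  obtain ⟨c0, hc0⟩ := good_next (𝒰 := 𝒰) C hX hm Q b
  set M := c0 + b + d + Q * C * d * (a + 1) + 1 with hM
  have hev : ∀ᶠ j in (𝒰 : Filter ℕ), ∃ n ∈ ((Finset.Ico M (2 * M) : Finset ℕ) : Set ℕ),
      Q * BB (X j) (T j) (N j) a b n ≤ 4 * N j := by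
    filter_upwards [h1 (2 * M) (by omega), h2 (2 * M) (by omega)] with j hj1 hj2
    obtain ⟨n, hn, hn'⟩ := BB_avg (hm j) (hd j) (hex j) C Q (N j) a b d M (hX j) hab (by omega)
      (by omega) (by omega) hj1 hj2
    exact ⟨n, by exact_mod_cast hn, hn'⟩
  rw [Ultrafilter.eventually_exists_mem_iff (Finset.finite_toSet _)] at hev
  obtain ⟨c, hc, hc'⟩ := hev
  have hc1 : c ∈ Finset.Ico M (2 * M) := by exact_mod_cast hc
  rw [Finset.mem_Ico] at hc1
  exact ⟨c, hc0 c (by omega), hc'⟩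

include hX hm hd hex in
lemma exists_scales (Q : ℕ) : ∃ n : ℕ → ℕ, n 0 = 0 ∧ (∀ k, n k < n (k + 1)) ∧
    ∀ k, ∀ᶠ j in (𝒰 : Filter ℕ),
      Q * BB (X j) (T j) (N j) (n k) (n (k + 1)) (n (k + 2)) ≤ 4 * N j := by
  obtain ⟨b0, hb0⟩ := good_next (𝒰 := 𝒰) C hX hm Q 0
  have hstep : ∀ q : {q : ℕ × ℕ // Good 𝒰 N X T Q q.1 q.2}, ∃ c, Good 𝒰 N X T Q q.1.2 c ∧
      ∀ᶠ j in (𝒰 : Filter ℕ), Q * BB (X j) (T j) (N j) q.1.1 q.1.2 c ≤ 4 * N j :=
    fun q => good_step C hX hm hd hex Q q.1.1 q.1.2 q.2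
  choose c hc1 hc2 using hstep
  let F : ℕ → {q : ℕ × ℕ // Good 𝒰 N X T Q q.1 q.2} := fun k =>
    Nat.rec ⟨(0, b0), hb0 b0 le_rfl⟩ (fun _ q => ⟨(q.1.2, c q), hc1 q⟩) k
  have hF0 : (F 0).1 = (0, b0) := rfl
  have hFs : ∀ k, (F (k + 1)).1 = ((F k).1.2, c (F k)) := fun k => rfl
  refine ⟨fun k => (F k).1.1, by simp [hF0], ?_, ?_⟩
  · intro k
    obtain ⟨d, h1, _⟩ := (F k).2
    have : (F (k + 1)).1.1 = (F k).1.2 := by rw [hFs]
    show (F k).1.1 < (F (k + 1)).1.1
    omega
  · intro k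
    have h1 : (F (k + 1)).1.1 = (F k).1.2 := by rw [hFs]
    have h2 : (F (k + 2)).1.1 = c (F k) := by rw [hFs (k + 1), hFs k]
    have := hc2 (F k)
    show ∀ᶠ j in (𝒰 : Filter ℕ),
      Q * BB (X j) (T j) (N j) (F k).1.1 (F (k + 1)).1.1 (F (k + 2)).1.1 ≤ 4 * N j
    rw [h1, h2]
    exact this

end Seq

/-- The counting theorem. -/
theorem count_thm {α : Type*} (C m : ℕ) : ∃ N0 : ℕ, ∀ N ≥ N0, ∀ (X : Finset α)
    (T : α → ℕ → ℕ → Prop), X.card ≤ C * N → (∀ x ∈ X, Mono (T x)) → (∀ x ∈ X, Disj (T x)) →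
    (∀ x ∈ X, ∃ i w, T x i w) →
    ∃ p : ℕ → ℕ, (∀ k, p k < p (k + 1)) ∧ p m < N ∧ ∀ x ∈ X, ∀ b, 2 ≤ b → b < m →
      ¬ (T x (p 0) (p b) ∧ ¬ T x (p 0) (p (b - 1)) ∧ ¬ T x (p (b - 2) + 1) (p b)) := by
  classical
  by_contra hcon
  push Not at hcon
  choose N hN X T hX hm hd hex hp using hcon
  obtain ⟨n, hn0, hn1, hn2⟩ := exists_scales (𝒰 := hyperfilter ℕ) C hX hm hd hex (8 * m + 8)
  have hev1 : ∀ᶠ j in (hyperfilter ℕ : Filter ℕ), ∀ k ∈ Finset.range m,
      (8 * m + 8) * BB (X j) (T j) (N j) (n k) (n (k + 1)) (n (k + 2)) ≤ 4 * N j := by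
    rw [Filter.eventually_all_finset]
    intro k _
    exact hn2 k
  have hev2 : ∀ᶠ j in (hyperfilter ℕ : Filter ℕ), 2 * n m + 2 ≤ j := by
    have h0 : ∀ᶠ j in (atTop : Filter ℕ), 2 * n m + 2 ≤ j := Filter.eventually_ge_atTop _
    rw [← Nat.cofinite_eq_atTop] at h0
    exact hyperfilter_le_cofinite h0
  obtain ⟨j, hj1, hj2⟩ := (hev1.and hev2).exists
  have hNj : 2 * n m + 2 ≤ N j := hj2.trans (hN j)
  set bad : ℕ → Finset ℕ := fun k => (Finset.range (N j)).filter (fun i => ∃ x ∈ X j,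
    T j x i (i + n (k + 2)) ∧ ¬ T j x i (i + n (k + 1)) ∧ ¬ T j x (i + n k + 1) (i + n (k + 2)))
    with hbad
  have hbadc : ∀ k, (bad k).card ≤ BB (X j) (T j) (N j) (n k) (n (k + 1)) (n (k + 2)) := by
    intro k
    have hsub : bad k ⊆ (X j).biUnion (fun x => (Finset.range (N j)).filter
        (fun i => T j x i (i + n (k + 2)) ∧ ¬ T j x i (i + n (k + 1)) ∧
          ¬ T j x (i + n k + 1) (i + n (k + 2)))) := by
      intro i hi
      rw [hbad, Finset.mem_filter] at hi
      obtain ⟨hi1, x, hx, hx2⟩ := hi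
      rw [Finset.mem_biUnion]
      exact ⟨x, hx, by rw [Finset.mem_filter]; exact ⟨hi1, hx2⟩⟩
    refine (Finset.card_le_card hsub).trans (Finset.card_biUnion_le.trans ?_)
    unfold BB
    apply le_of_eq
    apply Finset.sum_congr rfl
    intro x _
    congr 1
  have hunion : ((Finset.range m).biUnion bad).card < N j - n m := by
    have h1 : ((Finset.range m).biUnion bad).card ≤
        ∑ k ∈ Finset.range m, BB (X j) (T j) (N j) (n k) (n (k + 1)) (n (k + 2)) :=
      Finset.card_biUnion_le.trans (Finset.sum_le_sum (fun k _ => hbadc k))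
    have h2 : (8 * m + 8) * ∑ k ∈ Finset.range m,
        BB (X j) (T j) (N j) (n k) (n (k + 1)) (n (k + 2)) ≤ m * (4 * N j) := by
      rw [Finset.mul_sum]
      refine (Finset.sum_le_sum hj1).trans ?_
      rw [Finset.sum_const, Finset.card_range, smul_eq_mul]
    set S := ∑ k ∈ Finset.range m, BB (X j) (T j) (N j) (n k) (n (k + 1)) (n (k + 2))
    have h3 : 2 * S < N j := by
      by_contra h
      push Not at h
      have h4 : (4 * m + 4) * N j ≤ (4 * m + 4) * (2 * S) := Nat.mul_le_mul_left _ h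
      have h5 : (4 * m + 4) * (2 * S) = (8 * m + 8) * S := by ring
      have h6 : (4 * m + 4) * N j = m * (4 * N j) + 4 * N j := by ring
      omega
    omega
  have hex' : ∃ i ∈ Finset.range (N j - n m), i ∉ (Finset.range m).biUnion bad := by
    by_contra h
    push Not at h
    have := Finset.card_le_card (show Finset.range (N j - n m) ⊆ _ from h)
    rw [Finset.card_range] at this
    omega
  obtain ⟨i, hi, hib⟩ := hex'
  rw [Finset.mem_range] at hi
  obtain ⟨x, hx, b, hb1, hb2, hT⟩ := hp j (fun k => i + n k)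
    (by
      intro k
      have := hn1 k
      show i + n k < i + n (k + 1)
      omega)
    (by
      show i + n m < N j
      omega)
  apply hib
  rw [Finset.mem_biUnion]
  refine ⟨b - 2, by rw [Finset.mem_range]; omega, ?_⟩
  rw [hbad, Finset.mem_filter, Finset.mem_range]
  refine ⟨by omega, x, hx, ?_⟩
  have e1 : b - 2 + 2 = b := by omega
  have e2 : b - 2 + 1 = b - 1 := by omega
  rw [e1, e2]
  simp only [hn0, Nat.add_zero] at hT
  exact hT

end Pool.Agent.QHN
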