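import Pool.Agent.QHN.Chain
import Pool.Agent.QHN.Family

/-!
# Sublinearity of quantitative Helly numbers in the plane
-/

set_option autoImplicit false

namespace Pool.Agent.QHN

open Finset

/-- the core lemma: a critical configuration with many points contradicts `c(S,0) ≤ h` -/
lemma core (S : Set (E 2)) (h : ℕ) (hh : HellyBound S 0 h) (C : ℕ) :
    ∃ N0 : ℕ, ∀ (Y A : Finset (E 2)), (Y : Set (E 2)) ⊆ S →
      (∀ y ∈ Y, ∃ f : E 2 →ₗ[ℝ] ℝ, ∀ z ∈ Y, z ≠ y → f z < f y) →
      (∀ x ∈ S, x ∈ convexHull ℝ ((Y : Set (E 2)) ∪ A) → x ∈ Y ∨ x ∈ A) →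
      2 * (Y.card + A.card) ≤ C * Y.card → Y.card < 2 * N0 := by
  classical
  obtain ⟨N0, hN0⟩ := count_thm (α := E 2) C (h + 4)
  refine ⟨N0, fun Y A hYS hY hYA hcard => ?_⟩
  by_contra hcon
  push Not at hcon
  obtain ⟨N, v, s, hN, hvY, hvs, hg⟩ := chain Y hY
  have hvne : ∀ i j, i < N → j < N → v i = v j → i = j := by
    intro i j hi hj hij
    rcases lt_trichotomy i j with h1 | h1 | h1
    · have := hvs i j h1 hj
      rw [hij] at this
      exact absurd this (lt_irrefl _)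
    · exact h1
    · have := hvs j i h1 hi
      rw [hij] at this
      exact absurd this (lt_irrefl _)
  -- the arcs
  set V : Finset (E 2) := (Finset.range N).image v with hV
  let T : E 2 → ℕ → ℕ → Prop := fun x i w => x ∈ convexHull ℝ (v '' {k | k < N ∧ i ≤ k ∧ k ≤ w})
  set X : Finset (E 2) := (Y ∪ A).filter (fun x => x ∉ V ∧ x ∈ convexHull ℝ (V : Set (E 2))) with hX
  have hXmem : ∀ x, x ∈ X ↔ (x ∈ Y ∪ A) ∧ x ∉ V ∧ x ∈ convexHull ℝ (V : Set (E 2)) := by
    intro x
    rw [hX, Finset.mem_filter]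
  have hXcard : X.card ≤ C * N := by
    have h1 : X.card ≤ Y.card + A.card :=
      (Finset.card_filter_le _ _).trans (Finset.card_union_le _ _)
    have h2 : C * Y.card ≤ C * (2 * N) := Nat.mul_le_mul_left _ hN
    have h3 : C * (2 * N) = 2 * (C * N) := by ring
    omega
  have hVmem : ∀ x, x ∈ V ↔ ∃ k, k < N ∧ v k = x := by
    intro x
    rw [hV, Finset.mem_image]
    constructor
    · rintro ⟨k, hk, rfl⟩
      exact ⟨k, Finset.mem_range.1 hk, rfl⟩
    · rintro ⟨k, hk, rfl⟩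
      exact ⟨k, Finset.mem_range.2 hk, rfl⟩
  have hmono : ∀ x ∈ X, Mono (T x) := by
    intro x _ i j i' j' hT hi hj
    apply convexHull_mono _ hT
    apply Set.image_mono
    rintro k ⟨hk1, hk2, hk3⟩
    exact ⟨hk1, hi.trans hk2, hk3.trans hj⟩
  have hdisj : ∀ x ∈ X, Disj (T x) := by
    intro x hx i j i' j' hT1 hT2
    by_contra hle
    push Not at hle
    have hne2 : (v '' {k | k < N ∧ i' ≤ k ∧ k ≤ j'}).Nonempty := by
      rw [← convexHull_nonempty_iff (𝕜 := ℝ)]
      exact ⟨x, hT2⟩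
    obtain ⟨-, k0, ⟨hk0, hk0', -⟩, -⟩ := hne2
    have hi'N : i' < N := by omega
    have hjN : j < N := by omega
    have h1 : x = v j ∨ s x < s (v j) := by
      apply hull_insert s (v j) _ _ hT1
      rintro p ⟨k, ⟨hk1, hk2, hk3⟩, rfl⟩
      rcases hk3.eq_or_lt with h | h
      · left; rw [h]
      · right; exact hvs k j h hjN
    have h2 : s (v i') ≤ s x := by
      apply hull_ge s _ _ _ hT2
      rintro p ⟨k, ⟨hk1, hk2, hk3⟩, rfl⟩
      rcases hk2.eq_or_lt with h | h
      · rw [h]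
      · exact (hvs i' k h hk1).le
    have h3 : s (v j) ≤ s (v i') := by
      rcases hle.eq_or_lt with h | h
      · rw [h]
      · exact (hvs j i' h hi'N).le
    rcases h1 with h1 | h1
    · exact ((hXmem x).1 hx).2.1 ((hVmem x).2 ⟨j, hjN, h1.symm⟩)
    · linarith
  have hex : ∀ x ∈ X, ∃ i w, T x i w := by
    intro x hx
    refine ⟨0, N, ?_⟩
    have := ((hXmem x).1 hx).2.2
    apply convexHull_mono _ this
    intro y hy
    rw [Finset.mem_coe, hVmem] at hy
    obtain ⟨k, hk, rfl⟩ := hy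
    exact ⟨k, ⟨hk, by omega, by omega⟩, rfl⟩
  obtain ⟨p, hp, hpN, hpx⟩ := hN0 N (by omega) X T hXcard hmono hdisj hex
  have hpm : StrictMono p := strictMono_nat_of_lt_succ hp
  set m := h + 4 with hm
  have hpaN : ∀ a, a ≤ m → p a < N := fun a ha => (hpm.monotone ha).trans_lt hpN
  -- the configuration
  let Cs : Fin m → Set (E 2) := fun a => convexHull ℝ ((fun b => v (p b)) '' {b | b < m ∧ b ≠ a})
  have hCsV : ∀ a, ∀ x ∈ Cs a, x ∈ convexHull ℝ (V : Set (E 2)) := by
    intro a x hx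
    apply convexHull_mono _ hx
    rintro y ⟨b, ⟨hb, hba⟩, rfl⟩
    rw [Finset.mem_coe, hVmem]
    exact ⟨p b, hpaN b hb.le, rfl⟩
  have hVY : (V : Set (E 2)) ⊆ Y := by
    intro y hy
    rw [Finset.mem_coe, hVmem] at hy
    obtain ⟨k, hk, rfl⟩ := hy
    exact hvY k hk
  have hcore : (⋂ a, Cs a) ∩ S = ∅ := by
    rw [Set.eq_empty_iff_forall_notMem]
    rintro x ⟨hx, hxS⟩
    rw [Set.mem_iInter] at hx
    have hx0 : x ∈ convexHull ℝ (V : Set (E 2)) := hCsV ⟨0, by omega⟩ x (hx ⟨0, by omega⟩)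
    have hxYA : x ∈ Y ∪ A := by
      rw [Finset.mem_union]
      apply hYA x hxS
      apply convexHull_mono _ hx0
      exact hVY.trans Set.subset_union_left
    have hxV : x ∉ V := by
      intro hxV
      rw [hVmem] at hxV
      obtain ⟨k, hk, hkx⟩ := hxV
      obtain ⟨f, hf⟩ := hY x (hkx ▸ hvY k hk)
      have key : ∃ a : Fin m, ∀ b, b < m → b ≠ a → v (p b) ≠ x := by
        by_cases hex1 : ∃ b, b < m ∧ v (p b) = x
        · obtain ⟨b, hb, hbx⟩ := hex1
          refine ⟨⟨b, hb⟩, fun b' hb' hne hcon => ?_⟩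
          apply hne
          have h1 : p b' = p b := hvne _ _ (hpaN b' hb'.le) (hpaN b hb.le) (by rw [hcon, hbx])
          exact hpm.injective h1
        · push Not at hex1
          exact ⟨⟨0, by omega⟩, fun b hb _ => hex1 b hb⟩
      obtain ⟨a, ha⟩ := key
      have : f x < f x := by
        apply hull_lt f (f x) _ _ (hx a)
        rintro y ⟨b, ⟨hb, hba⟩, rfl⟩
        exact hf _ (hvY _ (hpaN b hb.le)) (ha b hb hba)
      exact lt_irrefl _ this
    have hxX : x ∈ X := (hXmem x).2 ⟨hxYA, hxV, hx0⟩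
    have hxne : ∀ k, k < N → x ≠ v k := by
      intro k hk hkx
      exact hxV ((hVmem x).2 ⟨k, hk, hkx.symm⟩)
    -- the long arc
    have hTlong : T x (p 0) (p (m - 2)) := by
      apply convexHull_mono _ (hx ⟨m - 1, by omega⟩)
      rintro y ⟨b, ⟨hb, hba⟩, rfl⟩
      have hba' : b ≠ m - 1 := hba
      exact ⟨p b, ⟨hpaN b hb.le, hpm.monotone (Nat.zero_le _), hpm.monotone (by omega)⟩, rfl⟩
    -- the short arc
    have hTshort : ¬ T x (p 0) (p 1) := by
      intro hT
      obtain ⟨g, b, hg1, hg2, hg3, hg4, hg5⟩ := hg (p 0) (p 1) (hp 0) (hpaN 1 (by omega))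
      have h1 : b ≤ g x := by
        apply hull_ge g _ _ _ hT
        rintro y ⟨k, ⟨hk1, hk2, hk3⟩, rfl⟩
        rcases hk2.eq_or_lt with h' | h'
        · rw [← h', hg1]
        · rcases hk3.eq_or_lt with h'' | h''
          · rw [h'', hg2]
          · exact (hg3 k h' h'').le
      have h2 : x = v (p 1) ∨ g x < g (v (p 1)) := by
        apply hull_insert g (v (p 1)) _ _ (hx ⟨0, by omega⟩)
        rintro y ⟨c, ⟨hc, hca⟩, rfl⟩
        have hc0 : c ≠ 0 := hca
        by_cases hc1 : c = 1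
        · left; show v (p c) = v (p 1); rw [hc1]
        · right
          show g (v (p c)) < g (v (p 1))
          rw [hg2]
          exact hg5 _ (hpm (by omega)) (hpaN c hc.le)
      rcases h2 with h2 | h2
      · exact hxne _ (hpaN 1 (by omega)) h2
      · rw [hg2] at h2
        linarith
    -- the minimal arc
    have hexb : ∃ b, T x (p 0) (p b) := ⟨m - 2, hTlong⟩
    set b := Nat.find hexb with hb
    have hTb : T x (p 0) (p b) := Nat.find_spec hexb
    have hbm : b ≤ m - 2 := Nat.find_min' hexb hTlong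
    have hb2 : 2 ≤ b := by
      by_contra hlt
      apply hTshort
      exact hmono x hxX _ _ _ _ hTb le_rfl (hpm.monotone (by omega))
    have hTb1 : ¬ T x (p 0) (p (b - 1)) := Nat.find_min hexb (by omega)
    apply hpx x hxX b hb2 (by omega)
    refine ⟨hTb, hTb1, ?_⟩
    intro hT
    obtain ⟨g, c, hg1, hg2, hg3, hg4, hg5⟩ := hg (p (b - 2)) (p b) (hpm (by omega))
      (hpaN b (by omega))
    have h1 : g x ≤ c := by
      apply hull_le g _ _ _ (hx ⟨b - 1, by omega⟩)
      rintro y ⟨a, ⟨ha, hab⟩, rfl⟩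
      have hab' : a ≠ b - 1 := hab
      show g (v (p a)) ≤ c
      rcases lt_trichotomy a (b - 2) with h' | h' | h'
      · exact (hg4 _ (hpm h')).le
      · rw [h', hg1]
      · rcases (show b ≤ a by omega).eq_or_lt with h'' | h''
        · rw [← h'', hg2]
        · exact (hg5 _ (hpm h'') (hpaN a ha.le)).le
    have h2 : x = v (p b) ∨ (-g) x < (-g) (v (p b)) := by
      apply hull_insert (-g) (v (p b)) _ _ hT
      rintro y ⟨k, ⟨hk1, hk2, hk3⟩, rfl⟩
      rcases hk3.eq_or_lt with h' | h'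
      · left; rw [h']
      · right
        rw [LinearMap.neg_apply, LinearMap.neg_apply, hg2]
        have := hg3 k (by omega) h'
        linarith
    rcases h2 with h2 | h2
    · exact hxne _ (hpaN b (by omega)) h2
    · rw [LinearMap.neg_apply, LinearMap.neg_apply, hg2] at h2
      linarith
  -- contradiction with the Helly number
  obtain ⟨I, hI, hI0⟩ := hh m Cs (fun a => convex_convexHull ℝ _) (by rw [hcore]; simp)
  have hex2 : ∃ a : Fin m, a ∉ I := by
    by_contra hcon2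
    push Not at hcon2
    have h1 : I = Finset.univ := Finset.eq_univ_of_forall hcon2
    rw [h1, Finset.card_univ, Fintype.card_fin] at hI
    omega
  obtain ⟨a, ha⟩ := hex2
  have h1 : v (p a) ∈ (⋂ i ∈ I, Cs i) ∩ S := by
    refine ⟨?_, hYS (hvY _ (hpaN a a.2.le))⟩
    simp only [Set.mem_iInter]
    intro i hi
    apply subset_convexHull
    refine ⟨a, ⟨a.2, fun hai => ?_⟩, rfl⟩
    apply ha
    rwa [Fin.ext hai]
  have h2 : ((⋂ i ∈ I, Cs i) ∩ S) = ∅ := by
    rw [← Set.encard_eq_zero]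
    exact_mod_cast hI0
  rw [h2] at h1
  exact h1

theorem planar (S : Set (E 2)) (hS : ∀ B ⊆ S, Bornology.IsBounded B → B.Finite)
    (hh : ∃ h, HellyBound S 0 h) (ε : ℝ) (hε : 0 < ε) :
    ∃ K : ℕ, ∀ k ≥ K, ∃ t : ℕ, (t : ℝ) ≤ ε * k ∧ HellyBound S k t := by
  obtain ⟨h, hh⟩ := hh
  set C : ℕ := ⌈2 + 2 / ε⌉₊ with hC
  obtain ⟨N0, hN0⟩ := core S h hh C
  refine ⟨⌈(2 * N0 : ℝ) / ε⌉₊, fun k hk => ⟨⌊ε * k⌋₊, Nat.floor_le (by positivity), ?_⟩⟩
  by_contra hcon
  obtain ⟨Y, A, hA, hY, hYS, hYf, hYA⟩ := crit S hS k _ hcon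
  have hkY : ε * k < Y.card := Nat.lt_of_floor_lt hY
  have h1 := hN0 Y A hYS hYf hYA (by
    rw [hA]
    have h2 : (2 + 2 / ε : ℝ) ≤ C := Nat.le_ceil _
    have h3 : (2 * ((Y.card : ℝ) + k)) ≤ C * Y.card := by
      have h4 : (2 / ε) * (ε * k) ≤ (2 / ε) * Y.card :=
        mul_le_mul_of_nonneg_left hkY.le (by positivity)
      have h5 : (2 / ε) * (ε * k) = 2 * k := by field_simp
      have h6 : (2 + 2 / ε : ℝ) * Y.card ≤ C * Y.card :=
        mul_le_mul_of_nonneg_right h2 (Nat.cast_nonneg _)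
      have h7 : (2 + 2 / ε : ℝ) * Y.card = 2 * Y.card + 2 / ε * Y.card := by ring
      linarith
    exact_mod_cast h3)
  have h2 : (2 * N0 : ℝ) / ε ≤ k := (Nat.le_ceil _).trans (by exact_mod_cast hk)
  rw [div_le_iff₀ hε] at h2
  have h3 : (Y.card : ℝ) < 2 * N0 := by exact_mod_cast h1
  linarith

end Pool.Agent.QHN
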